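import Pool.Agent.Helper99.W4.DEGB

/-!
# DED: `k[X, Y] / (Y² - f)` is a Dedekind domain
-/

set_option autoImplicit false

namespace Pool.Agent.Helper99.W4

open Pool.Agent.Helper40.W4 Polynomial Module

section

variable {R : Type} [CommRing R] [IsDomain R] (g : R)

/-- The quadratic extension of the fraction field. -/
abbrev LL := QuadraticAlgebra (FractionRing R) (algebraMap R (FractionRing R) g) 0

/-- The embedding. -/
noncomputable def toL : QuadraticAlgebra R g 0 →+* LL g where
  toFun w := ⟨algebraMap _ _ w.re, algebraMap _ _ w.im⟩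
  map_one' := by ext <;> simp [QuadraticAlgebra.re_one, QuadraticAlgebra.im_one]
  map_mul' x y := by ext1 <;> simp
  map_zero' := by ext <;> simp
  map_add' x y := by ext1 <;> simp

lemma toL_injective : Function.Injective (toL g) := by
  intro x y h
  have h1 := congrArg QuadraticAlgebra.re h
  have h2 := congrArg QuadraticAlgebra.im h
  simp only [toL, RingHom.coe_mk, MonoidHom.coe_mk, OneHom.coe_mk] at h1 h2
  ext1
  · exact IsFractionRing.injective R (FractionRing R) h1
  · exact IsFractionRing.injective R (FractionRing R) h2

lemma star_algebraMap' (r : R) : star (algebraMap R (LL g) r) = algebraMap R (LL g) r := by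
  have : algebraMap R (LL g) r = ⟨algebraMap R (FractionRing R) r, 0⟩ := rfl
  rw [this]
  ext1 <;> simp

/-- The conjugation as an algebra homomorphism. -/
noncomputable def starL : LL g →ₐ[R] LL g where
  toFun := star
  map_one' := star_one _
  map_mul' x y := by rw [star_mul, mul_comm]
  map_zero' := star_zero _
  map_add' x y := star_add x y
  commutes' r := star_algebraMap' g r

lemma mem_of_sq_mul [IsPrincipalIdealRing R] (hg : Squarefree g) (B : FractionRing R)
    (C : R) (h : algebraMap R (FractionRing R) C = algebraMap R (FractionRing R) g * B ^ 2) :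
    ∃ b : R, algebraMap R (FractionRing R) b = B := by
  obtain ⟨p, q, hq, hpq, rfl⟩ : ∃ p q : R, q ≠ 0 ∧ IsCoprime p q ∧
      B = algebraMap R (FractionRing R) p / algebraMap R (FractionRing R) q := by
    obtain ⟨p, q, hpq, h⟩ := IsFractionRing.exists_reduced_fraction (A := R) B
    refine ⟨p, q, nonZeroDivisors.coe_ne_zero q, hpq.isCoprime, ?_⟩
    rw [← h, IsFractionRing.mk'_eq_div]
  have hq' : algebraMap R (FractionRing R) q ≠ 0 :=
    (map_ne_zero_iff _ (IsFractionRing.injective R (FractionRing R))).2 hq
  have h1 : C * q ^ 2 = g * p ^ 2 := by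
    apply IsFractionRing.injective R (FractionRing R)
    rw [map_mul, map_pow, map_mul, map_pow, h]
    field_simp
  have h2 : q ^ 2 ∣ g := by
    have : IsCoprime (q ^ 2) (p ^ 2) := (hpq.symm.pow)
    exact this.dvd_of_dvd_mul_right ⟨C, by rw [← h1]; ring⟩
  have h3 : IsUnit q := hg q (by rwa [pow_two] at h2)
  obtain ⟨u, rfl⟩ := h3
  refine ⟨p * ↑u⁻¹, ?_⟩
  rw [eq_div_iff hq', ← map_mul, mul_assoc, Units.inv_mul, mul_one]

end

section

variable {R : Type} [CommRing R] [IsDomain R] [IsPrincipalIdealRing R] [CharZero R] (g : R)

/-- A quadratic extension `R[√g]` with `g` squarefree and `2` invertible is a Dedekind domain. -/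
lemma isDedekindDomain_quadratic (h2 : IsUnit (2 : R)) (hg : Squarefree g)
    (hsq : ∀ r : FractionRing R, r ^ 2 ≠ algebraMap R (FractionRing R) g) :
    IsDedekindDomain (QuadraticAlgebra R g 0) := by
  have : Fact (∀ r : FractionRing R, r ^ 2 ≠ algebraMap R (FractionRing R) g + 0 * r) :=
    ⟨fun r => by rw [zero_mul, add_zero]; exact hsq r⟩
  let alg : Algebra (QuadraticAlgebra R g 0) (LL g) := (toL g).toAlgebra
  have : IsScalarTower R (QuadraticAlgebra R g 0) (LL g) := by
    refine IsScalarTower.of_algebraMap_eq ?_
    intro r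
    show algebraMap R (LL g) r = toL g (algebraMap R _ r)
    ext1
    · simp [toL]; rfl
    · simp [toL]; rfl
  have : IsDomain (QuadraticAlgebra R g 0) := (toL_injective g).isDomain (toL g)
  have : CharZero (FractionRing R) :=
    charZero_of_injective_algebraMap (IsFractionRing.injective R (FractionRing R))
  have : IsIntegralClosure (QuadraticAlgebra R g 0) R (LL g) := by
    refine ⟨toL_injective g, ?_⟩
    intro x
    constructor
    · intro hx
      have hs : IsIntegral R (star x) := hx.map (starL g)
      have hA : IsIntegral R x.re := by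
        have h1 : IsIntegral R (x + star x) := hx.add hs
        have h3 : x + star x = algebraMap (FractionRing R) (LL g) (2 * x.re) := by
          ext1
          · simp; ring
          · simp
        rw [h3] at h1
        have h4 : IsIntegral R (2 * x.re) :=
          (isIntegral_algebraMap_iff (FaithfulSMul.algebraMap_injective _ _)).1 h1
        obtain ⟨u, hu⟩ := h2
        have h5 : x.re = algebraMap R (FractionRing R) (↑u⁻¹) * (2 * x.re) := by
          have : algebraMap R (FractionRing R) (↑u⁻¹) * 2 = 1 := by
            have h6 : algebraMap R (FractionRing R) (↑u⁻¹ * u) = 1 := by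
              rw [Units.inv_mul, map_one]
            rw [map_mul, hu, map_ofNat] at h6
            exact h6
          rw [← mul_assoc, this, one_mul]
        rw [h5]
        exact isIntegral_algebraMap.mul h4
      obtain ⟨A, hA⟩ := IsIntegrallyClosed.isIntegral_iff.1 hA
      have hB : IsIntegral R (algebraMap R (FractionRing R) g * x.im ^ 2) := by
        have h1 : IsIntegral R ((x - algebraMap R (LL g) A) ^ 2) :=
          (hx.sub isIntegral_algebraMap).pow 2
        have h3 : (x - algebraMap R (LL g) A) ^ 2 =
            algebraMap (FractionRing R) (LL g) (algebraMap R (FractionRing R) g * x.im ^ 2) := by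
          have h4 : algebraMap R (LL g) A = ⟨x.re, 0⟩ := by rw [← hA]; rfl
          have h5 : ∀ c, algebraMap (FractionRing R) (LL g) c = ⟨c, 0⟩ := fun _ => rfl
          rw [h4, h5, pow_two]
          ext1
          · simp only [QuadraticAlgebra.re_mul, QuadraticAlgebra.re_sub, QuadraticAlgebra.im_sub]
            ring
          · simp
        rw [h3] at h1
        exact (isIntegral_algebraMap_iff (FaithfulSMul.algebraMap_injective _ _)).1 h1
      obtain ⟨C, hC⟩ := IsIntegrallyClosed.isIntegral_iff.1 hB
      obtain ⟨B, hB⟩ := mem_of_sq_mul g hg x.im C hC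
      refine ⟨⟨A, B⟩, ?_⟩
      show toL g ⟨A, B⟩ = x
      ext1
      · exact hA
      · exact hB
    · rintro ⟨y, rfl⟩
      exact (Algebra.IsIntegral.isIntegral y).algebraMap
  exact IsIntegralClosure.isDedekindDomain R (FractionRing R) (LL g) (QuadraticAlgebra R g 0)

end

theorem ded_thm : S_DED := by
  intro k _ _ a c ha hf
  refine isDedekindDomain_quadratic (fpoly a c) ?_ hf ?_
  · have : (2 : k[X]) = C 2 := (map_ofNat C 2).symm
    rw [this]
    exact isUnit_C.2 (isUnit_iff_ne_zero.2 two_ne_zero)
  · intro r hr
    obtain ⟨p, q, hq, rfl⟩ := IsFractionRing.div_surjective (A := k[X]) r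
    have hq0 : q ≠ 0 := nonZeroDivisors.ne_zero hq
    have hq' : algebraMap k[X] (FractionRing k[X]) q ≠ 0 :=
      (map_ne_zero_iff _ (IsFractionRing.injective _ _)).2 hq0
    rw [div_pow, div_eq_iff (pow_ne_zero _ hq'), ← map_pow, ← map_pow, ← map_mul] at hr
    have h1 := IsFractionRing.injective k[X] (FractionRing k[X]) hr
    exact (natDegree_sq_sub ha p q hq0).1 (sub_eq_zero.2 h1)

end Pool.Agent.Helper99.W4
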