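import Pool.Agent.Helper40.W4.Spec

/-!
# DEGB: the norm of `A + B Y`
-/

set_option autoImplicit false

namespace Pool.Agent.Helper99.W4

open Pool.Agent.Helper40.W4 Polynomial Module

section

variable {k : Type} [Field k]

lemma a_ne_zero {a : k} (ha : ¬ IsSquare a) : a ≠ 0 := by
  rintro rfl
  exact ha ⟨0, by simp⟩

lemma natDegree_fpoly {a c : k} (ha : a ≠ 0) : (fpoly a c).natDegree = 6 := by
  unfold fpoly
  compute_degree!

lemma leadingCoeff_fpoly {a c : k} (ha : a ≠ 0) : (fpoly a c).leadingCoeff = a := by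
  rw [leadingCoeff, natDegree_fpoly ha]
  simp [fpoly, coeff_X_pow]

lemma fpoly_ne_zero {a c : k} (ha : a ≠ 0) : fpoly a c ≠ 0 := by
  intro h
  have := natDegree_fpoly (c := c) ha
  rw [h] at this
  simp at this

lemma norm_BB {a c : k} (w : BB k a c) :
    QuadraticAlgebra.norm w = w.re ^ 2 - fpoly a c * w.im ^ 2 := by
  rw [QuadraticAlgebra.norm_def]
  ring

/-- The degree of `A² - f B²`. -/
lemma natDegree_sq_sub {a c : k} (ha : ¬ IsSquare a) (A B : k[X]) (hB : B ≠ 0) :
    A ^ 2 - fpoly a c * B ^ 2 ≠ 0 ∧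
      (A ^ 2 - fpoly a c * B ^ 2).natDegree = max (2 * A.natDegree) (6 + 2 * B.natDegree) := by
  have ha0 := a_ne_zero ha
  have hf0 := fpoly_ne_zero (c := c) ha0
  have hd1 : (A ^ 2).natDegree = 2 * A.natDegree := by rw [natDegree_pow]
  have hd2 : (fpoly a c * B ^ 2).natDegree = 6 + 2 * B.natDegree := by
    rw [natDegree_mul hf0 (pow_ne_zero _ hB), natDegree_pow, natDegree_fpoly ha0]
  have hne : ∀ p : k[X], p.natDegree = max (2 * A.natDegree) (6 + 2 * B.natDegree) → p ≠ 0 := by
    intro p hp h0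
    rw [h0, natDegree_zero] at hp
    have := le_max_right (2 * A.natDegree) (6 + 2 * B.natDegree)
    omega
  suffices h : (A ^ 2 - fpoly a c * B ^ 2).natDegree =
      max (2 * A.natDegree) (6 + 2 * B.natDegree) from ⟨hne _ h, h⟩
  rcases lt_trichotomy (2 * A.natDegree) (6 + 2 * B.natDegree) with h | h | h
  · rw [natDegree_sub_eq_right_of_natDegree_lt (by rw [hd1, hd2]; exact h), hd2, max_eq_right h.le]
  · rw [h, max_self]
    apply natDegree_eq_of_le_of_coeff_ne_zero
    · refine (natDegree_sub_le _ _).trans ?_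
      rw [hd1, hd2, h, max_self]
    · have hA0 : A ≠ 0 := by
        rintro rfl
        simp at h
        omega
      rw [coeff_sub]
      have h1 : (A ^ 2).coeff (6 + 2 * B.natDegree) = A.leadingCoeff ^ 2 := by
        rw [← h, ← hd1, ← leadingCoeff, leadingCoeff_pow]
      have h2 : (fpoly a c * B ^ 2).coeff (6 + 2 * B.natDegree) = a * B.leadingCoeff ^ 2 := by
        rw [← hd2, ← leadingCoeff, leadingCoeff_mul, leadingCoeff_pow, leadingCoeff_fpoly ha0]
      rw [h1, h2]
      intro h0
      have hB0 : B.leadingCoeff ≠ 0 := leadingCoeff_ne_zero.2 hB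
      exact ha ⟨A.leadingCoeff / B.leadingCoeff, by field_simp; linear_combination -h0⟩
  · rw [natDegree_sub_eq_left_of_natDegree_lt (by rw [hd1, hd2]; exact h), hd1, max_eq_left h.le]

lemma norm_ne_zero {a c : k} (ha : ¬ IsSquare a) (w : BB k a c) (hw : w ≠ 0) :
    QuadraticAlgebra.norm w ≠ 0 := by
  rw [norm_BB]
  by_cases hB : w.im = 0
  · have : w.re ≠ 0 := by
      intro h
      exact hw (by ext1 <;> simp [h, hB])
    simpa [hB] using this
  · exact (natDegree_sq_sub ha w.re w.im hB).1

lemma natDegree_norm {a c : k} (ha : ¬ IsSquare a) (w : BB k a c) :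
    (w.im = 0 ∧ (QuadraticAlgebra.norm w).natDegree = 2 * w.re.natDegree) ∨
    (w.im ≠ 0 ∧ (QuadraticAlgebra.norm w).natDegree =
      max (2 * w.re.natDegree) (6 + 2 * w.im.natDegree)) := by
  rw [norm_BB]
  by_cases hB : w.im = 0
  · left
    refine ⟨hB, ?_⟩
    simp [hB]
  · right
    exact ⟨hB, (natDegree_sq_sub ha w.re w.im hB).2⟩

lemma isDomain_BB {a c : k} (ha : ¬ IsSquare a) : IsDomain (BB k a c) := by
  have : NoZeroDivisors (BB k a c) := by
    constructor
    intro x y hxy
    by_contra! h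
    have h1 := norm_ne_zero ha x h.1
    have h2 := norm_ne_zero ha y h.2
    have h3 := congrArg QuadraticAlgebra.norm hxy
    rw [map_mul, QuadraticAlgebra.norm_zero] at h3
    exact mul_ne_zero h1 h2 h3
  exact NoZeroDivisors.to_isDomain _

lemma norm_eq_algebra_norm {R : Type} [CommRing R] {a b : R} (w : QuadraticAlgebra R a b) :
    Algebra.norm R w = QuadraticAlgebra.norm w := by
  rw [Algebra.norm_apply, ← QuadraticAlgebra.det_toLinearMap_eq_norm]
  congr 1

lemma finite_quot_BB {a c : k} (ha : ¬ IsSquare a) (I : Ideal (BB k a c)) (hI : I ≠ ⊥) :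
    FiniteDimensional k (BB k a c ⧸ I) := by
  have := isDomain_BB (c := c) ha
  have hfin := fun i => (inferInstance : FiniteDimensional k (k[X] ⧸ Ideal.span
    ({I.smithCoeffs (QuadraticAlgebra.basis (fpoly a c) 0) hI i} : Set k[X])))
  exact Module.Finite.equiv (Ideal.quotientEquivDirectSum k
    (QuadraticAlgebra.basis (fpoly a c) 0) hI).symm

lemma finrank_quot_BB {a c : k} (ha : ¬ IsSquare a) (w : BB k a c) (hw : w ≠ 0) :
    finrank k (BB k a c ⧸ Ideal.span {w}) = (QuadraticAlgebra.norm w).natDegree := by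
  have := isDomain_BB (c := c) ha
  rw [finrank_quotient_span_eq_natDegree_norm (QuadraticAlgebra.basis (fpoly a c) 0) hw,
    norm_eq_algebra_norm]

end

theorem degb_thm : S_DEGB := by
  intro k _ _ a c ha
  have := isDomain_BB (c := c) ha
  refine ⟨this, ?_, ?_⟩
  · intro w hw
    refine ⟨norm_ne_zero ha w hw, ?_, finrank_quot_BB ha w hw, finite_quot_BB ha _ ?_⟩
    · rcases natDegree_norm ha w with ⟨-, h⟩ | ⟨-, h⟩
      · rw [h]
        exact even_two_mul _
      · rw [h]
        rcases max_choice (2 * w.re.natDegree) (6 + 2 * w.im.natDegree) with h' | h' <;> rw [h']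
        · exact even_two_mul _
        · exact ⟨3 + w.im.natDegree, by ring⟩
    · simpa [Ideal.span_singleton_eq_bot] using hw
  · intro w n hw
    rcases natDegree_norm ha w with ⟨h0, h⟩ | ⟨h0, h⟩
    · rw [h]
      simp only [h0, true_or, and_true]
      omega
    · rw [h, max_le_iff]
      simp only [h0, false_or]
      omega

end Pool.Agent.Helper99.W4
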